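import Pool.Agent.Lib.MP_d48993_lc.BAE.Gr.Stm
import Pool.Agent.Lib.MP_d48993_lc.AE.Node.Kills

/-!
# Module KNEV (finding 4190, K2): if a bad symbol is never found then all new edges are edges of the images
-/

set_option autoImplicit false

namespace Pool.Agent.Lib.MP_d48993_lc.Ba.Gr

open Pool.Agent.Lib.MP_d48993_lc.Node
open MP_8c048d_lc (pre join RecF)
open Txt (ht st mC mN mR ltN okN Leg)
open Kills (above exists_list small dfit dlt vstr_mono vstr_prefix)

/-- The nodes of a condition are closed under initial segments. -/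
theorem cv_pfx {W : World} {T : List ℕ → Prop} {c : Cnd3} (hc : CV W T c)
    {e : List ℕ × List ℕ × List ℕ} (he : e ∈ c.2) {t : List ℕ} (ht : t <+: e.1) :
    ∃ e' ∈ c.2, e'.1 = t := by
  have h1 : ∀ n : ℕ, ∀ e ∈ c.2, e.1.length = t.length + n → t <+: e.1 → ∃ e' ∈ c.2, e'.1 = t := by
    intro n
    induction n with
    | zero =>
      intro e he hl hp
      exact ⟨e, he, (hp.eq_of_length (by omega)).symm⟩
    | succ n ih =>
      intro e he hl hp
      have hne : e.1 ≠ [] := by
        intro h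
        rw [h] at hl
        simp at hl
      obtain ⟨e', h2, h3⟩ := hc.parent e he hne
      refine ih e' h2 ?_ ?_
      · rw [h3, List.length_dropLast]
        omega
      · rw [h3]
        obtain ⟨r, hr⟩ := hp
        have hrn : r ≠ [] := by
          intro h
          rw [← hr, h] at hl
          simp at hl
        refine ⟨r.dropLast, ?_⟩
        rw [← hr, List.dropLast_append_of_ne_nil hrn]
  obtain ⟨r, hr⟩ := ht
  exact h1 r.length e he (by rw [← hr, List.length_append]) ⟨r, hr⟩

/-- The tuple depends only on the texts of the conditions. -/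
theorem tup_congr (P : Par) (J : ℕ → Bool) (H : ℕ) (σ : ℕ → List ℕ) {k k' : ℕ → Cnd3}
    (h : ∀ c, (k c).1 = (k' c).1) : tup P J H σ k = tup P J H σ k' := by
  unfold tup
  refine List.map_congr_left fun c _ => ?_
  rw [h c]

/-- Module KNEV. -/
theorem knev (hA : AdoptBGStatement) (hC : CodesStatement) (hB : BasicStatement)
    (hM : MonoStatement) {P : Par} {J : ℕ → Bool} {H off : ℕ} {γ : ℕ → Node.Data} {y : ℕ → St}
    {al : ℕ → List ℕ} {it : ℕ → Itm} {bs cv : ℕ → Cnd3} {b i : ℕ} {mu : ℕ → List ℕ}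
    (hb : b < P.p) (hJ : J b = true) (hg : GD (γ b)) (hcv : CV (γ b).W (LT P (it b)) (cv b))
    (hle : CLe (LT P (it b)) (bs b) (cv b)) (hlg : LgC (bs b) (cv b))
    (hnev : ∀ γ' nu k, AExt P J H off γ y al it bs cv γ' nu k →
      ¬ Bad (γ' b) (ev P i H (tup P J H (cat mu al nu) k)))
    {γ' : ℕ → Node.Data} {nu : ℕ → List ℕ} {k : ℕ → Cnd3} (hf : AExt P J H off γ y al it bs cv γ' nu k) :
    ∀ v ∈ ev P i H (tup P J H (cat mu al nu) k), (γ b).N ≤ (tgt v).1 → (tgt v).1 < (γ' b).N →
      KE (k b) (src v) (tgt v) := by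
  intro v hv h1 h2
  obtain ⟨hgd, hext⟩ := hf.good b hb
  obtain ⟨hcv', hcle, hlgc⟩ := hf.cnd b hb hJ
  obtain ⟨l, hl⟩ := exists_list (cv b) (k b)
  have hmono : ∀ s, VS (γ b).W s → VS (γ' b).W s := hM.1 _ _ _
    (hM.2.2.1 _ _ hg.wf hext) (fun x t h => dlt h)
  -- the strings
  have hstr : ∀ ρ ∈ l.map (fun e => e.2.2), VStr (γ' b).W o ρ (endd o ρ) := by
    intro ρ hρ
    obtain ⟨e, he, rfl⟩ := List.mem_map.1 hρ
    rcases (hl e).1 he with h3 | ⟨e', h3, h4, rfl⟩
    · exact vstr_mono hmono (hcv.stem e h3).2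
    · exact hcv'.img e' h3
  obtain ⟨δ'', k1, k2, k3, k4, k5, k6⟩ := hA (γ b) (γ' b) (l.map (fun e => e.2.2)) hg hgd hext hstr
  have hvl : ∀ e ∈ l, VStr δ''.W o e.2.2 (endd o e.2.2) :=
    fun e he => k5 _ (List.mem_map.2 ⟨e, he, rfl⟩)
  obtain ⟨s1, s2⟩ := small hcv hcv' hcle l hl hC hvl
  -- `LgC`
  have s3 : LgC (bs b) ((k b).1, l) := by
    intro e he
    rcases (hl e).1 he with h3 | ⟨e', h3, h4, rfl⟩
    · exact hlg e h3
    · obtain ⟨e₁, h5, h6, h7⟩ := hlgc e' h3
      have h8 : e₁.2.2 <+: e'.2.1 := by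
        rcases List.prefix_or_prefix_of_prefix h6 (hcv'.stem e' h3).1 with h9 | h9
        · exact h9
        · exfalso
          obtain ⟨p, h10, h11⟩ := hle.old e₁ h5
          obtain ⟨p', h12, h13⟩ := hcle.old _ h11
          have h14 := hcv'.stemEmb _ h13 e' h3 (h9.trans (h10.trans h12))
          obtain ⟨e₀, h15, h16⟩ := cv_pfx hcv h11 h14
          exact h4 e₀ h15 h16
      refine ⟨e₁, h5, h8, fun g hg' => ?_⟩
      obtain ⟨r, hr⟩ := h8
      obtain ⟨r', hr'⟩ := (hcv'.stem e' h3).1
      refine h7 g ?_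
      simp only at hg'
      rw [← hr, List.drop_left] at hg'
      rw [← hr', ← hr, List.append_assoc, List.drop_left]
      exact List.mem_append_left _ hg'
  -- the new extension
  have hk1 : ∀ c, ((Function.update k b ((k b).1, l)) c).1 = (k c).1 := by
    intro c
    by_cases hc : c = b
    · subst hc
      rw [Function.update_self]
    · rw [Function.update_of_ne hc]
  have hnew : AExt P J H off γ y al it bs cv (Function.update γ' b δ'') nu
      (Function.update k b ((k b).1, l)) := by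
    refine ⟨fun s hs => ?_, fun s hs hJs => ?_, fun s hs hJs => ?_, fun c hc => ?_⟩
    · by_cases hsb : s = b
      · subst hsb
        rw [Function.update_self]
        exact ⟨k1, k2⟩
      · rw [Function.update_of_ne hsb]
        exact hf.good s hs
    · have hsb : s ≠ b := by
        rintro rfl
        rw [hJ] at hJs
        exact absurd hJs (by simp)
      rw [Function.update_of_ne hsb]
      exact hf.str s hs hJs
    · by_cases hsb : s = b
      · subst hsb
        rw [Function.update_self, Function.update_self]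
        exact ⟨s1, s2, s3⟩
      · rw [Function.update_of_ne hsb, Function.update_of_ne hsb]
        exact hf.cnd s hs hJs
    · rw [hk1 c]
      exact hf.txt c hc
  have h3 := hnev _ _ _ hnew
  rw [Function.update_self, tup_congr P J H _ hk1] at h3
  have h4 : δ''.W.edge (src v) (tgt v) := by
    by_contra h5
    exact h3 ⟨v, hv, by rw [k4]; exact h2, h5⟩
  obtain ⟨ρ, h5, g, h6, h7⟩ := k6 _ _ h4 h1
  obtain ⟨e, he, rfl⟩ := List.mem_map.1 h5
  rcases (hl e).1 he with h8 | ⟨e', h8, h9, rfl⟩
  · exfalso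
    have h10 := ((hB (γ b).W (dfit (γ b))).2.2.2.1 g ((hcv.stem e h8).2.2 g h6) _ _ h7).1
    have h11 := dlt h10
    omega
  · exact ⟨e', h8, g, h6, h7⟩

end Pool.Agent.Lib.MP_d48993_lc.Ba.Gr
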