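import Pool.Agent.Lib.MP_d48993_lc.BAE.Kill.Kfin

/-!
# Module KILLN (finding 4190, K5.3): the join of the generic reals does not compute a member of `B`
-/

set_option autoImplicit false

namespace Pool.Agent.Lib.MP_d48993_lc.Ba.Gr

open Pool.Agent.Lib.MP_d48993_lc.Node
open MP_8c048d_lc (pre join RecF length_pre pre_take)
open Txt (ht st mC mN mR ltN okN Leg)
open Tup

variable {P : Par} {G : Gph} {V O : ℕ → ℕ → ℕ}

theorem tx_zero {J : ℕ → Bool} (hJ : ∀ s < P.p, J s = false) (c : ℕ) : Tx P J 0 c = false := by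
  unfold Tx Prs
  by_cases hc : P.p ≤ c
  · simp [show ¬ c < P.p by omega]
  · simp [hc, hJ c (by omega)]

/-- The blocks without known colours. -/
def S0 (P : Par) (n : ℕ) : Prop := ∀ s < P.p, JJ n s = false

/-- Module KILLN. -/
theorem killn (hBk : BlkStatement) (hRg : RegStatement) (hDn : DensStatement) (hP : P.Ok)
    (hL : Lim4 P G) (hO : ∀ s < P.p, ∀ k, RL P G s (pre (O s) k))
    (hD : ∀ N, Dcd P.p (Ps P G) (kn P fun _ => false) O (DK P G (fun _ => false) (S0 P) N)) :
    XH P (fun _ => false) 0 V O ∉ Up (BB P) := by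
  have hM := mono codes (basic codes)
  rintro ⟨f, hf, hr⟩
  obtain ⟨i, hi⟩ := (hP.enum.spec _ _).1 hr
  obtain ⟨t, y, mu, K, hN, h3, hS, hpas⟩ :=
    exists_pas hDn hP hL (S := S0 P) (N := i + 1)
      (fun N => by
        obtain ⟨n, hn, h⟩ := (hBk P.p hP.pos).2.2.2.2.2.2.2.1 (fun _ => false) N
        exact ⟨n, hn, h, h⟩) (hD (i + 1))
  have hbn : i < blk P.p t := hN
  have hJ' : ∀ s < P.p, JJ (blk P.p t) s = (fun _ => false : ℕ → Bool) s := hS
  rw [← xh_congr hJ'] at hi
  have hpas' : Pas P G (JJ (blk P.p t)) t y mu (fun s => pre (O s) (K s)) :=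
    ⟨fun s hs _ => hpas.trd s hs rfl, fun s hs _ => hpas.vs s hs rfl,
      fun s hs _ => hpas.px s hs rfl, fun s hs _ => hpas.rise s hs rfl,
      fun s hs _ => hpas.long s hs rfl⟩
  have hT0 : ∀ c, Tx P (JJ (blk P.p t)) 0 c = false := tx_zero hS
  generalize hX : XH P (JJ (blk P.p t)) 0 V O = X at hi
  have htt : Ttup P G t 0 y mu (fun _ => (0, 0, [], [], [])) :=
    ⟨h3, fun s hs h => ⟨hpas'.trd s hs h, hpas'.vs s hs h⟩,
      fun c hc => by rw [hT0 c] at hc; exact absurd hc (by simp)⟩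
  -- columns
  have hcol : ∀ c, Prs P 0 c = true → c < P.p := by
    intro c hc
    rcases prs_cases (J := JJ (blk P.p t)) hc with h | ⟨-, h, -⟩
    · rw [hT0 c] at h; exact absurd h (by simp)
    · exact h
  have h6 : ∃ j, fj P 0 (tup P (JJ (blk P.p t)) 0 (cat mu (adv G t y) (fun _ => []))
      (fun _ => G.fin t (0, 0, [], [], []))) = pre X j := by
    rw [← hX]
    refine ⟨_, fj_pre hP.pos fun c hc h7 => ?_⟩
    rw [getD_tup _ _ _ _ _ hc, hT0 c]
    show ∃ k, cat mu (adv G t y) (fun _ => []) c = pre (O c) k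
    unfold cat
    rw [List.append_nil]
    exact eq_pre' (hpas'.px c (hcol c h7) (hS c (hcol c h7)))
  obtain ⟨j, hj⟩ := h6
  rcases (hL.ctr t).killn y mu _ htt hS i hbn with h4 | h4
  · apply h4
    unfold evF ev
    rw [hj, hi.1 j]
    exact hf _
  · -- a long future
    obtain ⟨m, hm⟩ := hi.2 ((P.Φ i (pre X j)).length + 1)
    let L : ℕ := (Finset.range P.p).sup K + m
    have hLK : ∀ s < P.p, K s ≤ L := fun s hs =>
      (Finset.le_sup (f := K) (Finset.mem_range.2 hs)).trans (Nat.le_add_right _ _)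
    have hLm : m ≤ L := Nat.le_add_left _ _
    have hex : ∀ s, ∃ t₂, s < P.p → ∀ t' ≥ t₂,
        VStr (G.d t' s).W o (pre (O s) L) (endd o (pre (O s) L)) := by
      intro s
      by_cases hs : s < P.p
      · obtain ⟨t₂, h5⟩ := (hO s hs L).1
        exact ⟨t₂, fun _ t' ht' => LimF.vstr_mono hM hL hs ht' h5⟩
      · exact ⟨0, fun h1 => (hs h1).elim⟩
    choose t₂ ht₂ using hex
    let t' : ℕ := (Finset.range P.p).sup t₂ + (t + 1)
    have ht2 : ∀ s < P.p, t₂ s ≤ t' := fun s hs => by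
      have := Finset.le_sup (f := t₂) (Finset.mem_range.2 hs)
      show t₂ s ≤ _ + _
      omega
    have ht3 : t + 1 ≤ t' := Nat.le_add_left _ _
    obtain ⟨nu, hnu, hext⟩ := fut_true hRg hP hL (fun s hs _ => hO s hs) hpas'
      (it := fun _ => (0, 0, [], [], [])) (k := fun _ => ([], [])) (H := 0) ht3
      (fun c hc => by rw [hT0 c] at hc; exact absurd hc (by simp))
      (fun s hs h => by rw [hS s hs] at h; exact absurd h (by simp))
      hLK (fun s hs _ => ht₂ s hs t' (ht2 s hs))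
    have h5 := h4 _ _ _ hext
    unfold evX evF ev at h5
    rw [hj] at h5
    have hval : pre X m <+: fj P 0 (tup P (JJ (blk P.p t)) 0 (cat mu (adv G t y) nu)
        (fun _ => ([], []))) := by
      rw [← hX]
      refine pre_fj hP.pos fun c hc h7 => ?_
      rw [getD_tup _ _ _ _ _ hc, hT0 c]
      exact ⟨L, hLm, hnu c (hcol c h7) (hS c (hcol c h7))⟩
    have h6 := (hP.enum.mono i _ _ hval).length_le
    omega

end Pool.Agent.Lib.MP_d48993_lc.Ba.Gr
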