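import Pool.Agent.Lib.MP_d48993_lc.BAE.Kill.Kfin
import Pool.Agent.Lib.MP_d48993_lc.BAE.Rig.Tchn

/-!
# The chain of conditions of a run (finding 4190, K4): a followed block gives `KFol`
-/

set_option autoImplicit false

namespace Pool.Agent.Lib.MP_d48993_lc.Ba.Txt

open MP_8c048d_lc (pre join RecF Cop)
open Ind2 (Sg J Gen Crt)
open Gr (Par Gph Lim4 Eff CG Con1 Itm IsItm Ends code0 Facts star JJ Fol BB AA KFol)
open Node (Cnd3 CLe CV endd VS World)
open Encodable (encode decode)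

/-- The item of a followed state: the run follows it, with a chain of conditions. -/
theorem kfol_of_run (hPTM : StPTM) (hMINV : StMINV) (hGT : Gr.GTStatement) (hTF : StTFUTp)
    (hTC : StTCHN) {P : Par} (hP : P.Ok) {G : Gph} (hG : Lim4 P G)
    (hcp : ∀ e i σ, P.Tr (Nat.pair e i + 1) σ ↔ P.Tr (Nat.pair e 0 + 1) σ) {s : ℕ} (hs : s < P.p)
    {hd : ℕ} {lam : ℕ × List ℕ → Bool} {ρ : List ℕ → ℕ} {fo : ℕ → ℕ} {e cn : ℕ → ℕ}
    (hcn : ∀ p, cn p < 2) {A : ℕ → ℕ} {R C Q S Z : ℕ → St3} {V : ℕ → ℕ}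
    (hrun : IsRun (ptM P G s hd lam) ρ fo e cn A R C Q S Z V) {u : ℕ}
    (hf : (ptM P G s hd lam).fol (Q u) = true) :
    Fol P G (Q u).stg (itm s hd (Q u)) V ∧
    KFol P G (Q u).stg (itm s hd (Q u)) V
      (fun l => Gr.res (TE P.Tr (Q u).E) (R (u + 1 + l)).c)
      (fun l => Gr.fst P.p (R (u + 1 + l)).stg) := by
  have htf := (hTF P hP G hG hcp s hs hd lam ρ fo e cn hcn A R C Q S Z V hrun).1
  obtain ⟨hch, hdisp⟩ := hTC P hP G hG hcp s hs hd lam ρ fo e cn hcn A R C Q S Z V hrun u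
  obtain ⟨hok, hitm, htr, hann, hstar, hgrow, hcom⟩ := hPTM P hP G hG hcp s hs hd lam
  obtain ⟨hinv, -, -, hlev, hfut, -, -⟩ := hMINV (P.Hd hd) (ptM P G s hd lam) _ _ hok ρ fo e cn
    hcn A R C Q S Z V hrun
  obtain ⟨-, hg1, -, -, hg4, -, hg5, hgf⟩ := hGT P hP G hG s hs hd
  have hchk : ¬ (ptM P G s hd lam).chk = true := Bool.false_ne_true
  have hS : ∀ u, S u = (ptM P G s hd lam).star (Q u) := by
    intro u
    obtain ⟨n, hn⟩ := hrun.star u
    unfold Mch.agr at hn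
    rw [if_neg hchk] at hn
    exact (Option.some.inj hn).symm
  have iR : ∀ u, PInv P G s hd (R u) := fun u => (hinv u).1
  have aQ : ∀ u, PAnv P G s hd (Q u) := fun u => (hinv u).2.2.1
  have hJ : JJ (Q u).stg s = true := hf
  have hI : IsItm P G (Q u).stg (itm s hd (Q u)) := hitm (Q u) (aQ u) hJ
  have hSe : S u = ((Q u).stg + 2, (Q u).E,
      g1 P G s hd ((Q u).stg + 1) (Q u).E (star P G (Q u).stg (itm s hd (Q u)))) := by
    rw [hS u]
    change pstar P G s hd (Q u) = _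
    unfold pstar
    rw [if_pos hJ]
  obtain ⟨h5, -⟩ := hg5 (Q u).stg (itm s hd (Q u)) hI rfl rfl
  obtain ⟨hc1, -, hc3, hc4⟩ := Ars.lcode_spec
    (P := fun c' : Cnd3 => c'.1 = (star P G (Q u).stg (itm s hd (Q u))).1 ∧
      imgs c' = imgs (star P G (Q u).stg (itm s hd (Q u))) ∧
      CG P G s (P.Hd hd) ((Q u).stg + 1 + 1) (Q u).E c' ∧
      Con1 P G s (TE P.Tr (Q u).E) ((Q u).stg + 1) ((Q u).stg + 1 + 1)
        (star P G (Q u).stg (itm s hd (Q u))) c') (star P G (Q u).stg (itm s hd (Q u)))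
    (hg1 ((Q u).stg + 1) (by have := hI.three; omega) (Q u).E _ h5)
  change (g1 P G s hd ((Q u).stg + 1) (Q u).E (star P G (Q u).stg (itm s hd (Q u)))).1 = _ at hc1
  change CG P G s (P.Hd hd) ((Q u).stg + 1 + 1) (Q u).E
    (g1 P G s hd ((Q u).stg + 1) (Q u).E (star P G (Q u).stg (itm s hd (Q u)))) at hc3
  change Con1 P G s (TE P.Tr (Q u).E) ((Q u).stg + 1) ((Q u).stg + 1 + 1) _
    (g1 P G s hd ((Q u).stg + 1) (Q u).E (star P G (Q u).stg (itm s hd (Q u)))) at hc4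
  -- late states
  have hcg : ∀ v, u < v → CG P G s (P.Hd hd) (R v).stg (Q u).E
      (Gr.res (TE P.Tr (Q u).E) (R v).c) := fun v huv => hg4 _ _ _ (iR v).cg _ (htf u v huv).1.E
  have hlate : ∀ v, u < v → ∀ t, Gr.blk P.p t = (Q u).stg →
      Txt.Le (P.Hd hd) (ht (P.Hd hd) (G.fin t (itm s hd (Q u))).1) (G.fin t (itm s hd (Q u))).1
        (Gr.res (TE P.Tr (Q u).E) (R v).c).1 ∧
      CLe (TE P.Tr (Q u).E) (G.fin t (itm s hd (Q u))) (Gr.res (TE P.Tr (Q u).E) (R v).c) ∧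
      Gr.LgC (G.cur t (itm s hd (Q u))) (Gr.res (TE P.Tr (Q u).E) (R v).c) := by
    intro v huv t hbt
    obtain ⟨h2, h3, -, -⟩ := htf u v huv
    have h6 := hcg v huv
    have h7 := h3.con.le
    have h8 := (hfut u v huv).2.1
    have h9 : ht (P.Hd hd) (Z u).txt = ht (P.Hd hd) (S u).txt :=
      congrArg List.length (hlev u).2.2.2.2.1
    rw [h9] at h8
    rw [hSe] at h7 h8
    exact hgf (Q u).stg (itm s hd (Q u)) hI rfl
      (g1 P G s hd ((Q u).stg + 1) (Q u).E (star P G (Q u).stg (itm s hd (Q u)))) hc4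
      (by
        change Le (P.Hd hd) _ _ (g1 P G s hd ((Q u).stg + 1) (Q u).E
          (star P G (Q u).stg (itm s hd (Q u)))).1
        rw [hc1]
        exact Le.rfl' h5.leg)
      (fun e' he' => ⟨⟨_, (hc3.cv.stem e' he').2⟩, hc3.reg e' he'⟩)
      (Gr.fst P.p (R v).stg) (Gr.res (TE P.Tr (Q u).E) (R v).c) h6.cv h6.reg h7 h8 t hbt
  have hlong : ∀ m, ∃ v, u < v ∧ m ≤ (R v).txt.length := by
    intro m
    obtain ⟨v, hv⟩ := hrun.len (m + 1 + ∑ i ∈ Finset.range (u + 1), (R i).txt.length)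
    refine ⟨v, ?_, by omega⟩
    by_contra hvu
    have h2 : (R v).txt.length ≤ ∑ i ∈ Finset.range (u + 1), (R i).txt.length :=
      Finset.single_le_sum (f := fun i => (R i).txt.length) (fun i _ => Nat.zero_le _)
        (Finset.mem_range.2 (by omega))
    omega
  have hv : ∀ l, u < u + 1 + l := fun l => by omega
  refine ⟨⟨hI, fun m => ?_⟩, ?_⟩
  · obtain ⟨v, huv, hv⟩ := hlong m
    refine ⟨Gr.fst P.p (R v).stg, Gr.res (TE P.Tr (Q u).E) (R v).c, hv, hrun.text v,
      fun _ t' ht' => Tfutp.cv_mono (fun g hg => Gr.LimF.vs_mono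
        (Node.mono Node.codes (Node.basic Node.codes)) hG hs ht' hg) (hcg v huv).cv,
        fun t hbt => ?_⟩
    obtain ⟨a1, a2, a3⟩ := hlate v huv t hbt
    exact ⟨a1, fun _ => ⟨a2, a3⟩⟩
  · refine ⟨fun l => (hcg _ (hv l)).cv, fun l => ?_, fun l => ⟨_, hrun.text _⟩, fun k => ?_,
      fun l x hx => ?_, fun l t hbt => ?_⟩
    · have := (hch (u + 1 + l) (hv l)).2
      exact this
    · obtain ⟨v, huv, hv⟩ := hlong k
      refine ⟨v - (u + 1), ?_⟩
      have h1 : u + 1 + (v - (u + 1)) = v := by omega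
      show k ≤ (Gr.res (TE P.Tr (Q u).E) (R (u + 1 + (v - (u + 1)))).c).1.length
      rw [h1]
      exact hv
    · have hcv0 := (hcg _ (hv 0)).cv
      rcases hdisp _ (hv l) x hx with h1 | ⟨i, hi, hVi⟩
      · left
        obtain ⟨p, hp⟩ := (hcg _ (hv l)).cv.root
        have h2 := (hcg _ (hv l)).cv.uniq _ hp x hx h1.symm
        obtain ⟨p0, hp0⟩ := hcv0.root
        rw [← h2]
        exact ⟨p0, hp0⟩
      · by_cases h3 : (Gr.res (TE P.Tr (Q u).E) (R (u + 1 + 0)).c).1.length ≤ i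
        · right
          exact ⟨i, h3, hVi⟩
        · left
          push Not at h3
          have h4 := (hch _ (hv 0)).1
          refine h4.fact (V i) ?_ _ _ hVi ((hcg _ (hv l)).cv.mem x hx)
          have h5 : (Gr.res (TE P.Tr (Q u).E) (R (u + 1 + 0)).c).1 =
            pre V (R (u + 1 + 0)).txt.length := hrun.text _
          have h6 : (Gr.res (TE P.Tr (Q u).E) (R (u + 1 + 0)).c).1.length =
            (R (u + 1 + 0)).txt.length := rfl
          rw [h6] at h3
          rw [h5]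
          have h7 : (pre V (R (u + 1 + 0)).txt.length)[i]? = some (V i) := by
            rw [MP_8c048d_lc.pre_getElem?, if_pos h3]
          have h8 : ((pre V (R (u + 1 + 0)).txt.length).drop (Q u).c.1.length)[i - (Q u).c.1.length]? =
              some (V i) := by
            rw [List.getElem?_drop, ← h7]
            congr 1
            have : (Q u).c.1.length = (Q u).txt.length := rfl
            omega
          exact List.mem_of_getElem? h8
    · obtain ⟨a1, a2, a3⟩ := hlate _ (hv l) t hbt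
      exact ⟨a2, a3, a1⟩

end Pool.Agent.Lib.MP_d48993_lc.Ba.Txt
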